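import Mathlib
import Pool.Agent.TH888.A.AMean

set_option autoImplicit false

/-!
# The mean for the low digits, with error term
-/

open Filter Topology
open scoped Real

namespace Pool.Agent.TH888.A

open Pool.Agent.W66L
open Pool.Agent.TH888.R (ZZ_rate VV_rate)
open Pool.Agent.H305R2 (VV ZZ ZZ_nonneg VV_nonneg log_nat_tendsto)

lemma log_sq_small (A : ℝ) : ∀ᶠ q : ℕ in atTop, A * Real.log q ^ 2 ≤ q := by
  have h1 := (Real.isLittleO_pow_log_id_atTop (n := 2)).bound
    (show (0 : ℝ) < 1 / (|A| + 1) by positivity)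
  have h2 : ∀ᶠ x : ℝ in atTop, A * Real.log x ^ 2 ≤ x := by
    filter_upwards [h1, eventually_ge_atTop 1] with x hx hx1
    rw [Real.norm_of_nonneg (by positivity), id, Real.norm_of_nonneg (by linarith),
      one_div_mul_eq_div, le_div_iff₀ (by positivity)] at hx
    have h3 : 0 ≤ Real.log x ^ 2 := sq_nonneg _
    nlinarith [le_abs_self A]
  exact tendsto_natCast_atTop_atTop.eventually h2

lemma aux1 {δ : ℝ} (h0 : 0 < δ) (h1 : δ < 1 / 4) : 1 + δ ≤ (1 + 6 * δ) * (1 - 2 * δ) := by nlinarith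

lemma aux2 (δ : ℝ) : 1 - 2 * δ ≤ (1 - δ) ^ 2 := by nlinarith [sq_nonneg δ]

lemma aux3 {δ : ℝ} (h0 : 0 < δ) (h1 : δ < 1 / 4) : (1 - δ) ^ 2 ≤ 1 := by nlinarith

lemma aux4 {δ x : ℝ} (h1 : δ < 1 / 4) (hx : 0 < x) : x / 2 ≤ (1 - 2 * δ) * x := by nlinarith

lemma aux5 {δ x : ℝ} (h0 : 0 < δ) (h1 : δ < 1 / 4) (hx : 0 < x) : x / 2 ≤ (1 - δ) * x := by nlinarith

lemma aux6 {δ C : ℝ} (h0 : 0 < δ) (h1 : δ < 1 / 4) (hx : 0 < C) : 6 * δ * C ≤ 2 * C := by nlinarith

/-- **The mean with error term.** -/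
theorem mq_rate {b : ℕ} (hb : 2 ≤ b) : ∃ K : ℝ, 0 < K ∧ ∃ P : ℕ, ∀ q ≥ P,
    |mq b q - Real.exp Real.eulerMascheroniConstant / Real.log b * (Real.log q / q)| ≤ K / q := by
  obtain ⟨C, hC, X0, hpi⟩ := pi_rate
  obtain ⟨C1, hC1, hV⟩ := VV_rate
  obtain ⟨C2, hC2, hZ⟩ := ZZ_rate
  set G := Real.exp Real.eulerMascheroniConstant with hG
  have hG0 : 0 < G := Real.exp_pos _
  set lb := Real.log b with hlb
  have hlb0 : 0 < lb := Real.log_pos (by exact_mod_cast hb)
  have hρ := tot_ratio_pos hb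
  set ρ := (b.totient : ℝ) / b with hρdef
  set D0 := 2 / lb * (C2 + 1) with hD0
  have hD0p : 0 < D0 := by positivity
  set x0 := max X0 1 with hx0
  -- one large constant
  set A := 2 + 4 * C / (D0 * lb) + (|x0| + 4) / (D0 * lb) + 1 / (D0 ^ 2 * lb) + 4 / lb with hA
  have hA2 : 2 ≤ A := by
    rw [hA]
    have : 0 ≤ 4 * C / (D0 * lb) := by positivity
    have : 0 ≤ (|x0| + 4) / (D0 * lb) := by positivity
    have : 0 ≤ 1 / (D0 ^ 2 * lb) := by positivity
    have : 0 ≤ 4 / lb := by positivity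
    linarith
  have key : ∀ᶠ q : ℕ in atTop,
      |mq b q - G / lb * (Real.log q / q)| ≤
        ((3 * C1 + 6 * D0 * G) / lb + 1 / ρ + 1 / (ρ * lb) + 1 / ρ) / q := by
    filter_upwards [log_sq_small A, log_nat_tendsto.eventually_gt_atTop (4 * D0 + 1),
      eventually_ge_atTop (b + 2)] with q h1 h2 h3
    set l := Real.log q with hl
    have hl1 : 1 < l := by linarith
    have hl0 : 0 < l := by linarith
    have hq2 : (2 : ℝ) ≤ q := by exact_mod_cast (by omega : 2 ≤ q)
    have hq0 : (0 : ℝ) < q := by linarith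
    have hl2 : l ≤ l ^ 2 := le_self_pow₀ hl1.le two_ne_zero
    have hlq : 0 < lb * q := by positivity
    have c1 : ∀ c : ℝ, 0 ≤ c → c ≤ A → c * l ^ 2 ≤ q := fun c _ hcA =>
      (mul_le_mul_of_nonneg_right hcA (sq_nonneg l)).trans h1
    have c1' : ∀ c : ℝ, 0 ≤ c → c ≤ A → c * l ≤ q := fun c hc hcA =>
      (mul_le_mul_of_nonneg_left hl2 hc).trans (c1 c hc hcA)
    have p1 : 0 ≤ 4 * C / (D0 * lb) := by positivity
    have p2 : 0 ≤ (|x0| + 4) / (D0 * lb) := by positivity
    have p3 : 0 ≤ 1 / (D0 ^ 2 * lb) := by positivity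
    have p4 : 0 ≤ 4 / lb := by positivity
    have d1 := c1' (4 * C / (D0 * lb)) p1 (by rw [hA]; linarith)
    have d2 := c1' ((|x0| + 4) / (D0 * lb)) p2 (by rw [hA]; linarith)
    have d3 := c1 (1 / (D0 ^ 2 * lb)) p3 (by rw [hA]; linarith)
    have d4 := c1' (4 / lb) p4 (by rw [hA]; linarith)
    have d5 := c1 2 (by norm_num) hA2
    set δ := D0 / l with hδd
    have hδ : 0 < δ := by positivity
    have hδ1 : δ < 1 / 4 := by
      rw [hδd, div_lt_iff₀ hl0]
      linarith
    have hδl : δ * l = D0 := by rw [hδd]; field_simp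
    have f1 : 4 * C ≤ δ * (lb * q) := by
      rw [div_mul_eq_mul_div, div_le_iff₀ (by positivity)] at d1
      have : 4 * C * l ≤ (δ * (lb * q)) * l := by
        calc 4 * C * l ≤ q * (D0 * lb) := d1
          _ = (δ * l) * (lb * q) := by rw [hδl]; ring
          _ = _ := by ring
      exact le_of_mul_le_mul_right this hl0
    have f2 : |x0| + 4 ≤ δ * (lb * q) := by
      rw [div_mul_eq_mul_div, div_le_iff₀ (by positivity)] at d2
      have : (|x0| + 4) * l ≤ (δ * (lb * q)) * l := by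
        calc (|x0| + 4) * l ≤ q * (D0 * lb) := d2
          _ = (δ * l) * (lb * q) := by rw [hδl]; ring
          _ = _ := by ring
      exact le_of_mul_le_mul_right this hl0
    have f3 : 1 / δ ≤ δ * (lb * q) := by
      rw [div_mul_eq_mul_div, div_le_iff₀ (by positivity)] at d3
      rw [div_le_iff₀ hδ]
      have h9 : 1 * l ^ 2 ≤ (δ * (lb * q) * δ) * l ^ 2 := by
        calc 1 * l ^ 2 ≤ q * (D0 ^ 2 * lb) := d3
          _ = (δ * l) ^ 2 * (lb * q) := by rw [hδl]; ring
          _ = _ := by ring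
      exact le_of_mul_le_mul_right h9 (by positivity)
    have hlx : ∀ x : ℝ, x0 ≤ x → Real.exp ((1 - 2 * δ) * (lb * q)) ≤ x →
        |(Nat.primeCounting ⌊x⌋₊ : ℝ) * Real.log x / x - 1| < δ := by
      intro x hx1 hx2
      have hx0' : 0 < x := lt_of_lt_of_le (Real.exp_pos _) hx2
      have hlogx : (1 - 2 * δ) * (lb * q) ≤ Real.log x := by
        rw [Real.le_log_iff_exp_le hx0']; exact hx2
      have h5 : lb * q / 2 ≤ Real.log x := by
        exact (aux4 hδ1 hlq).trans hlogx
      refine (hpi x ((le_max_left _ _).trans hx1)).trans_lt ?_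
      have h6 : C / Real.log x ≤ C / (lb * q / 2) := div_le_div_of_nonneg_left hC.le (by positivity) h5
      refine h6.trans_lt ?_
      rw [div_lt_iff₀ (by positivity)]
      have h7 : δ * (lb * q / 2) = δ * (lb * q) / 2 := by ring
      rw [h7]
      linarith
    have hup := AA_upper' (b := b) (q := q) (x0 := x0) hb hδ hδ1
      (fun x hx1 hx2 => by have := (abs_lt.1 (hlx x hx1 hx2)).2; linarith)
      (by
        refine max_le ?_ ?_
        · linarith [le_abs_self x0]
        · linarith [abs_nonneg x0]) (by omega)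
    have hlo := AA_lower' (b := b) (q := q) (x0 := x0) hb hδ hδ1
      (fun x hx1 hx2 => by have := (abs_lt.1 (hlx x hx1 hx2)).1; linarith)
      (by
        refine max_le (max_le ?_ ?_) ?_
        · linarith [le_abs_self x0]
        · linarith [abs_nonneg x0]
        · exact f3) (by omega)
    rw [← hlb] at hup hlo
    rw [VB_eq hb (by omega), ← hρdef] at hup hlo
    -- the small term
    set E := Real.exp (-(δ * (lb * q) / 2)) * ZZ q with hE
    have hE0 : 0 ≤ E := mul_nonneg (Real.exp_pos _).le (ZZ_nonneg q)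
    have hE1 : E ≤ 1 / q := by
      have h5 := hZ q (by omega)
      rw [← hl] at h5
      calc E ≤ Real.exp (-(δ * (lb * q) / 2)) * Real.exp (C2 * (q / l)) := by
            rw [hE]; gcongr
        _ = Real.exp (-(q / l)) := by
            rw [← Real.exp_add]
            congr 1
            have : δ * (lb * q) / 2 = (C2 + 1) * (q / l) := by
              rw [hδd, hD0]
              field_simp
            rw [this]; ring
        _ ≤ Real.exp (-l) := by
            rw [Real.exp_le_exp, neg_le_neg_iff, le_div_iff₀ hl0, ← sq]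
            linarith [sq_nonneg l]
        _ = 1 / q := by rw [Real.exp_neg, hl, Real.exp_log hq0, one_div]
    have hF1 : (q : ℝ) * Real.exp (-((1 - δ) * (lb * q))) ≤ 1 / q := by
      have h5 : 2 * l ≤ (1 - δ) * (lb * q) := by
        rw [div_mul_eq_mul_div, div_le_iff₀ hlb0] at d4
        have : lb * q / 2 ≤ (1 - δ) * (lb * q) := aux5 hδ hδ1 hlq
        linarith
      have h6 : Real.exp (-((1 - δ) * (lb * q))) ≤ Real.exp (-(2 * l)) := by
        rw [Real.exp_le_exp]; linarith
      have h7 : Real.exp (-(2 * l)) = 1 / (q : ℝ) ^ 2 := by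
        rw [Real.exp_neg, two_mul, Real.exp_add, hl, Real.exp_log hq0, one_div, sq]
      calc (q : ℝ) * Real.exp (-((1 - δ) * (lb * q))) ≤ q * (1 / (q : ℝ) ^ 2) := by
            rw [← h7]; gcongr
        _ = 1 / q := by field_simp
    have hVq := hV q (by omega)
    rw [← hl, abs_le] at hVq
    have hV0 : 0 ≤ VV q := VV_nonneg q
    have hmq : mq b q = AA b q / ((b : ℝ) ^ q * ρ) := by
      unfold mq
      rw [tot_pow hb (by omega)]
    have hb0 : (0 : ℝ) < b := by exact_mod_cast (by omega : 0 < b)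
    have hbq : (0 : ℝ) < (b : ℝ) ^ q := by positivity
    have hd12 : 0 < 1 - 2 * δ := by linarith
    have hupm : mq b q ≤ (1 + δ) / ((1 - 2 * δ) * (lb * q)) * VV q + E / ρ := by
      rw [hmq, div_le_iff₀ (by positivity)]
      refine hup.trans (le_of_eq ?_)
      field_simp
    have hlom : (1 - δ) ^ 2 / (lb * q) * (VV q - E / ρ) -
        q * Real.exp (-((1 - δ) * (lb * q))) / ρ ≤ mq b q := by
      rw [hmq, le_div_iff₀ (by positivity)]
      refine le_trans (le_of_eq ?_) hlo
      field_simp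
    have hEρ : E / ρ ≤ (1 / ρ) / q := by
      calc E / ρ ≤ (1 / q) / ρ := div_le_div_of_nonneg_right hE1 hρ.le
        _ = _ := by ring
    have hEρ0 : 0 ≤ E / ρ := by positivity
    have g1 : (1 + δ) / ((1 - 2 * δ) * (lb * q)) * VV q ≤
        G / lb * (l / q) + ((3 * C1 + 6 * D0 * G) / lb) / q := by
      have h5 : (1 + δ) / ((1 - 2 * δ) * (lb * q)) ≤ (1 + 6 * δ) / (lb * q) := by
        rw [div_le_div_iff₀ (by positivity) hlq]
        have h6 : 1 + δ ≤ (1 + 6 * δ) * (1 - 2 * δ) := aux1 hδ hδ1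
        calc (1 + δ) * (lb * q) ≤ ((1 + 6 * δ) * (1 - 2 * δ)) * (lb * q) := by gcongr
          _ = _ := by ring
      have h7 : (1 + 6 * δ) * VV q ≤ G * l + (3 * C1 + 6 * D0 * G) := by
        have h8 : VV q ≤ G * l + C1 := by linarith [hVq.2]
        have h9 : 6 * δ * VV q ≤ 6 * D0 * G + 2 * C1 := by
          calc 6 * δ * VV q ≤ 6 * δ * (G * l + C1) := by gcongr
            _ = 6 * (δ * l) * G + 6 * δ * C1 := by ring
            _ ≤ 6 * D0 * G + 2 * C1 := by
                rw [hδl]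
                have := aux6 hδ hδ1 hC1
                linarith
        linarith
      calc (1 + δ) / ((1 - 2 * δ) * (lb * q)) * VV q ≤ (1 + 6 * δ) / (lb * q) * VV q := by gcongr
        _ = ((1 + 6 * δ) * VV q) / (lb * q) := by ring
        _ ≤ (G * l + (3 * C1 + 6 * D0 * G)) / (lb * q) := by gcongr
        _ = _ := by field_simp
    have g2 : G / lb * (l / q) - ((C1 + 2 * D0 * G) / lb) / q - (1 / (ρ * lb)) / q ≤
        (1 - δ) ^ 2 / (lb * q) * (VV q - E / ρ) := by
      have h5 : (1 - 2 * δ) * VV q ≤ (1 - δ) ^ 2 * VV q := by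
        exact mul_le_mul_of_nonneg_right (aux2 δ) hV0
      have h6 : G * l - C1 - 2 * D0 * G ≤ (1 - 2 * δ) * VV q := by
        have h8 : G * l - C1 ≤ VV q := by linarith [hVq.1]
        calc G * l - C1 - 2 * D0 * G = (1 - 2 * δ) * (G * l - C1) - 2 * δ * C1 + 2 * G * (δ * l - D0) := by ring
          _ ≤ (1 - 2 * δ) * (G * l - C1) := by
              rw [hδl]
              have : 0 ≤ 2 * δ * C1 := by positivity
              linarith
          _ ≤ _ := by gcongr
      have h7 : (1 - δ) ^ 2 * (E / ρ) ≤ (1 / ρ) := by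
        have h8 : (1 - δ) ^ 2 ≤ 1 := aux3 hδ hδ1
        have h9 : E / ρ ≤ 1 / ρ := by
          refine div_le_div_of_nonneg_right ?_ hρ.le
          refine hE1.trans ?_
          rw [div_le_one hq0]; linarith
        calc (1 - δ) ^ 2 * (E / ρ) ≤ 1 * (1 / ρ) := by gcongr
          _ = _ := one_mul _
      have h10 : (G * l - C1 - 2 * D0 * G - 1 / ρ) / (lb * q) ≤
          ((1 - δ) ^ 2 * VV q - (1 - δ) ^ 2 * (E / ρ)) / (lb * q) := by
        gcongr
        linarith
      calc _ = (G * l - C1 - 2 * D0 * G - 1 / ρ) / (lb * q) := by field_simp; ring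
        _ ≤ _ := h10
        _ = _ := by ring
    have g3 : q * Real.exp (-((1 - δ) * (lb * q))) / ρ ≤ (1 / ρ) / q := by
      calc q * Real.exp (-((1 - δ) * (lb * q))) / ρ ≤ (1 / q) / ρ :=
            div_le_div_of_nonneg_right hF1 hρ.le
        _ = _ := by ring
    have k1 : 0 ≤ (1 / ρ) / q := by positivity
    have k2 : 0 ≤ (1 / (ρ * lb)) / q := by positivity
    have k3 : ((C1 + 2 * D0 * G) / lb) / q ≤ ((3 * C1 + 6 * D0 * G) / lb) / q := by
      gcongr
      · linarith
      · linarith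
    have etot : ((3 * C1 + 6 * D0 * G) / lb + 1 / ρ + 1 / (ρ * lb) + 1 / ρ) / q =
        ((3 * C1 + 6 * D0 * G) / lb) / q + (1 / ρ) / q + (1 / (ρ * lb)) / q + (1 / ρ) / q := by ring
    rw [etot, abs_le]
    constructor
    · linarith
    · linarith
  obtain ⟨P, hP⟩ := eventually_atTop.1 key
  exact ⟨(3 * C1 + 6 * D0 * G) / lb + 1 / ρ + 1 / (ρ * lb) + 1 / ρ, by positivity, P, hP⟩

end Pool.Agent.TH888.A
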