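import Mathlib
import Pool.Agent.W66.LU
import Pool.Agent.TH888.A.Rate
import Pool.Agent.TH888.R.Asy

set_option autoImplicit false

/-!
# The laws with error term for uniformly distributed low digits
-/

open Filter Topology Finset MeasureTheory
open scoped Real

namespace Pool.Agent.TH888.A

open Pool.Agent.W66
open Pool.Agent.W66L
open Pool.Agent.TH888.R
open Pool.Agent.H305R2 (roughPart ZZ VV log_nat_tendsto)

/-- the row sums of the correlation matrix -/
theorem CO_set {b : ℕ} (hb : 2 ≤ b) : ∃ κ C : ℝ, 0 < κ ∧ 0 < C ∧ ∃ P : ℕ, 3 ≤ P ∧ ∀ q ≥ P,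
    ∀ T : Finset ℕ, (∀ p ∈ T, p.Prime ∧ P ≤ p ∧ p < q) →
      ∑ p ∈ T, |CO b p q| ≤
        C * ((Real.log q / q) * (1 + ∑ p ∈ T.filter (fun p : ℕ => κ * q / Real.log q < (p : ℝ)),
          Real.log p / p)) := by
  classical
  obtain ⟨κ, K1, hκ, hK1, hfar⟩ := rough_L1 hb
  obtain ⟨P1, hP1⟩ := eventually_atTop.1 hfar
  obtain ⟨K2, hK2, hmid⟩ := mid_count hb
  obtain ⟨P2, hP2⟩ := eventually_atTop.1 hmid
  obtain ⟨K3, hK3, hnear⟩ := near_count hb
  obtain ⟨P3, hP3⟩ := eventually_atTop.1 hnear
  obtain ⟨K4, hK4, hmq⟩ := mq_le hb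
  obtain ⟨P4, hP4⟩ := eventually_atTop.1 hmq
  have hρ := tot_ratio_pos hb
  set ρ := (b.totient : ℝ) / b with hρdef
  set J : ℕ → ℕ → ℝ := fun p q => if 1 ≤ p then CO b p q else 0 with hJ
  set K := K1 / ρ + (K2 / ρ + K4 ^ 2) + (K3 / ρ + K4 + K4 ^ 2) with hK
  have hKpos : 0 < K := by positivity
  have hw0 : ∀ m : ℕ, 0 ≤ Real.log m / m := fun m =>
    div_nonneg (Real.log_natCast_nonneg m) (Nat.cast_nonneg m)
  have hanti : ∀ p q : ℕ, 3 ≤ p → p ≤ q → Real.log q / q ≤ Real.log p / p := by
    intro p q hp hpq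
    apply Real.log_div_self_antitoneOn
    · show Real.exp 1 ≤ (p : ℝ)
      have : (3 : ℝ) ≤ p := by exact_mod_cast hp
      linarith [Real.exp_one_lt_d9]
    · show Real.exp 1 ≤ (q : ℝ)
      have : (3 : ℝ) ≤ q := by exact_mod_cast hp.trans hpq
      linarith [Real.exp_one_lt_d9]
    · exact_mod_cast hpq
  obtain ⟨C, hC, P', hP', hP3', hrow⟩ := Pool.Agent.TH888.R.row_set (κ := κ) (K := K) hκ hKpos hb J
    (P1 + P2 + P3 + P4 + 3)
    (by
      intro q hq p hp
      have hlq : 0 ≤ Real.log q / (q : ℝ) ^ 2 :=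
        div_nonneg (Real.log_natCast_nonneg q) (by positivity)
      simp only [hJ]
      split_ifs with hp1
      · haveI : NeZero b := ⟨by omega⟩
        obtain ⟨h1, h2⟩ := hP1 q (by omega) ⌊κ * q / Real.log q⌋₊ rfl
        have hpk : p ≤ ⌊κ * q / Real.log q⌋₊ := Nat.le_floor hp
        have h3 := far_sum (p := p) hb hp1 hpk h1
        have hφ := tot_pow_pos hb q
        unfold CO
        rw [abs_div, abs_of_pos hφ, div_le_iff₀ hφ, tot_pow hb (by omega)]
        refine (h3.trans h2).trans ?_
        rw [← hρdef]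
        have hKK : K1 ≤ K * ρ := by
          have : K1 / ρ ≤ K := by rw [hK]; have : 0 < K2 / ρ := by positivity
                                  have : 0 < K3 / ρ := by positivity
                                  nlinarith [sq_nonneg K4]
          rwa [div_le_iff₀ hρ] at this
        calc K1 * ((b : ℝ) ^ q * (Real.log q / (q : ℝ) ^ 2)) ≤
            (K * ρ) * ((b : ℝ) ^ q * (Real.log q / (q : ℝ) ^ 2)) :=
              mul_le_mul_of_nonneg_right hKK (by positivity)
          _ = _ := by ring
      · rw [abs_zero]; exact mul_nonneg hKpos.le hlq)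
    (by
      intro p hp q hq
      have hp1 : 1 ≤ p := by omega
      simp only [hJ]
      rw [if_pos hp1, CO_eq hb hp1 (by omega), tot_pow hb (by omega), ← hρdef]
      have h1 := hP2 p (by omega) q hq
      have h2 := hP4 p (by omega)
      have h3 := hP4 q (by omega)
      have hm1 := mq_nonneg b p
      have hm2 := mq_nonneg b q
      have hwp := hw0 p
      have hwq := hw0 q
      have hJC0 : 0 ≤ JC b p q :=
        Finset.sum_nonneg fun m _ => mul_nonneg (rpi_nonneg _ _) (rpi_nonneg _ _)
      have hbq : (0 : ℝ) < (b : ℝ) ^ q := by positivity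
      have h4 : JC b p q / ((b : ℝ) ^ q * ρ) ≤ K2 / ρ * ((Real.log p / p) * (Real.log q / q)) := by
        rw [div_le_iff₀ (by positivity)]
        refine h1.trans (le_of_eq ?_)
        field_simp
      have h4' : 0 ≤ JC b p q / ((b : ℝ) ^ q * ρ) := by positivity
      have h5 : mq b p * mq b q ≤ K4 ^ 2 * ((Real.log p / p) * (Real.log q / q)) := by
        calc mq b p * mq b q ≤ (K4 * (Real.log p / p)) * (K4 * (Real.log q / q)) :=
              mul_le_mul h2 h3 hm2 (by positivity)
          _ = _ := by ring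
      have h5' : 0 ≤ mq b p * mq b q := mul_nonneg hm1 hm2
      have h6 : 0 ≤ (Real.log p / p) * (Real.log q / q) := mul_nonneg hwp hwq
      have hKK : K2 / ρ + K4 ^ 2 ≤ K := by
        rw [hK]
        have : 0 < K1 / ρ := by positivity
        have : 0 < K3 / ρ := by positivity
        nlinarith [sq_nonneg K4]
      calc |JC b p q / ((b : ℝ) ^ q * ρ) - mq b p * mq b q| ≤
          JC b p q / ((b : ℝ) ^ q * ρ) + mq b p * mq b q := by
            rw [abs_le]; constructor <;> linarith
        _ ≤ (K2 / ρ + K4 ^ 2) * ((Real.log p / p) * (Real.log q / q)) := by linarith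
        _ ≤ _ := mul_le_mul_of_nonneg_right hKK h6)
    (by
      intro p hp q hpq hq2
      have hp1 : 1 ≤ p := by omega
      simp only [hJ]
      rw [if_pos hp1, CO_eq hb hp1 hpq.le]
      have h1 := hP3 p (by omega) q hpq hq2
      have h2 := hP4 p (by omega)
      have h3 := hP4 q (by omega)
      have hm1 := mq_nonneg b p
      have hm2 := mq_nonneg b q
      have hwp := hw0 p
      have hwq := hw0 q
      have hJC0 : 0 ≤ JC b p q :=
        Finset.sum_nonneg fun m _ => mul_nonneg (rpi_nonneg _ _) (rpi_nonneg _ _)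
      have hφ := tot_pow_pos hb q
      have hφp := tot_pow_pos hb p
      have hbqp : (0 : ℝ) < (b : ℝ) ^ (q - p) := by
        have : (0 : ℝ) < b := by exact_mod_cast (by omega : 0 < b)
        positivity
      have e1 : AA b p / ((b ^ q).totient : ℝ) = ((b : ℝ) ^ (q - p))⁻¹ * mq b p := by
        rw [tot_lift hb hp1 hpq.le]
        unfold mq
        field_simp
      have h4 : JC b p q / ((b ^ q).totient : ℝ) ≤
          ((b : ℝ) ^ (q - p))⁻¹ * mq b p + K3 / ρ * (Real.log p / p) ^ 2 := by
        rw [← e1, div_le_iff₀ hφ, add_mul, div_mul_cancel₀ _ hφ.ne']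
        refine h1.trans ?_
        rw [tot_pow hb (by omega), ← hρdef]
        apply le_of_eq
        field_simp
      have h4' : 0 ≤ JC b p q / ((b ^ q).totient : ℝ) := by positivity
      have h5 : mq b p * mq b q ≤ K4 ^ 2 * (Real.log p / p) ^ 2 := by
        calc mq b p * mq b q ≤ (K4 * (Real.log p / p)) * (K4 * (Real.log q / q)) :=
              mul_le_mul h2 h3 hm2 (by positivity)
          _ ≤ (K4 * (Real.log p / p)) * (K4 * (Real.log p / p)) := by
              apply mul_le_mul_of_nonneg_left _ (by positivity)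
              exact mul_le_mul_of_nonneg_left (hanti p q (by omega) hpq.le) hK4.le
          _ = _ := by ring
      have h5' : 0 ≤ mq b p * mq b q := mul_nonneg hm1 hm2
      have h6 : ((b : ℝ) ^ (q - p))⁻¹ * mq b p ≤ K4 * (((b : ℝ) ^ (q - p))⁻¹ * (Real.log p / p)) := by
        calc ((b : ℝ) ^ (q - p))⁻¹ * mq b p ≤ ((b : ℝ) ^ (q - p))⁻¹ * (K4 * (Real.log p / p)) :=
              mul_le_mul_of_nonneg_left h2 (by positivity)
          _ = _ := by ring
      have h7 : 0 ≤ ((b : ℝ) ^ (q - p))⁻¹ * (Real.log p / p) := mul_nonneg (by positivity) hwp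
      have h8 : 0 ≤ (Real.log p / p) ^ 2 := sq_nonneg _
      have hKK1 : K3 / ρ + K4 ^ 2 ≤ K := by
        rw [hK]
        have : 0 < K1 / ρ := by positivity
        have : 0 < K2 / ρ := by positivity
        nlinarith [sq_nonneg K4]
      have hKK2 : K4 ≤ K := by
        rw [hK]
        have : 0 < K1 / ρ := by positivity
        have : 0 < K2 / ρ := by positivity
        have : 0 < K3 / ρ := by positivity
        nlinarith [sq_nonneg K4]
      calc |JC b p q / ((b ^ q).totient : ℝ) - mq b p * mq b q| ≤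
          JC b p q / ((b ^ q).totient : ℝ) + mq b p * mq b q := by
            rw [abs_le]; constructor <;> linarith
        _ ≤ K4 * (((b : ℝ) ^ (q - p))⁻¹ * (Real.log p / p)) +
            (K3 / ρ + K4 ^ 2) * (Real.log p / p) ^ 2 := by linarith
        _ ≤ K * (((b : ℝ) ^ (q - p))⁻¹ * (Real.log p / p)) + K * (Real.log p / p) ^ 2 :=
            add_le_add (mul_le_mul_of_nonneg_right hKK2 h7) (mul_le_mul_of_nonneg_right hKK1 h8)
        _ = _ := by ring)
  refine ⟨κ, C, hκ, hC, P', hP3', fun q hq T hT => ?_⟩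
  refine le_trans (le_of_eq ?_) (hrow q hq T hT)
  refine Finset.sum_congr rfl fun p hp => ?_
  have hp1 : 1 ≤ p := (hT p hp).1.pos
  simp only [hJ]
  rw [if_pos hp1]

section

variable {Ω : Type*} [MeasurableSpace Ω] {μ : Measure Ω} {b : ℕ} {r : ℕ → Ω → ℕ}

/-- the indicator of a prime rough part of the number formed by the last digits -/
noncomputable def fl (r : ℕ → Ω → ℕ) (q : ℕ) (x : Ω) : ℝ := rpi q (r q x)

lemma mq_le_one' (hb : 2 ≤ b) (q : ℕ) : mq b q ≤ 1 := by
  rcases Nat.eq_zero_or_pos q with h | h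
  · subst h
    unfold mq AA
    simp
  · exact mq_le_one hb h

/-- **Low digits form a system.** -/
theorem sys_low [IsProbabilityMeasure μ] (hb : 2 ≤ b) (hr : Low b μ r) :
    Sys μ (fl r) (fun q _ => mq b q)
      (fun _ => Real.exp Real.eulerMascheroniConstant / Real.log b) where
  fm q := (measurable_from_nat (f := rpi q)).comp (hr.meas q)
  mm q := measurable_const
  f01 q x := by
    unfold fl rpi
    split_ifs
    · exact Or.inr rfl
    · exact Or.inl rfl
  m0 q x := mq_nonneg b q
  m1 q x := mq_le_one' hb q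
  mean := by
    obtain ⟨K, hK, P, h⟩ := mq_rate hb
    refine ⟨K, hK.le, P, Filter.Eventually.of_forall fun x q hq _ => ?_⟩
    have := h q hq
    rw [mul_one_div]
    exact this
  cb := by
    have hlb0 : 0 < Real.log b := Real.log_pos (by exact_mod_cast hb)
    exact ⟨_, _, div_pos (Real.exp_pos _) hlb0, Filter.Eventually.of_forall fun x => ⟨le_rfl, le_rfl⟩⟩
  row := by
    obtain ⟨κ, C, hκ, hC, P, hP3, hrow⟩ := CO_set hb
    obtain ⟨K, hK, hmq⟩ := mq_le hb
    obtain ⟨P1, hP1⟩ := eventually_atTop.1 hmq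
    have hw0 : ∀ m : ℕ, 0 ≤ Real.log m / m := fun m =>
      div_nonneg (Real.log_natCast_nonneg m) (Nat.cast_nonneg m)
    have hG : ∀ p : ℕ, p.Prime → ∀ x, fl r p x - mq b p = Gc b r p x := by
      intro p hp x
      unfold fl Gc
      rw [if_pos hp]
    refine ⟨κ, C + K, hκ, by positivity, P + P1, by omega, fun q hq hqp => ?_, fun q hq hqp T hT => ?_⟩
    · simp only [hG q hqp]
      refine ((Gc_diag hr hb q (by omega)).trans (hP1 q (by omega))).trans ?_
      exact mul_le_mul_of_nonneg_right (by linarith) (hw0 q)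
    · have h1 := hrow q (by omega) T (fun p hp => by
        obtain ⟨h1, h2, h3⟩ := hT p hp
        exact ⟨h1, by omega, h3⟩)
      have h2 : ∑ p ∈ T, |∫ x, (fl r p x - mq b p) * (fl r q x - mq b q) ∂μ| ≤
          ∑ p ∈ T, |CO b p q| := by
        refine Finset.sum_le_sum fun p hp => ?_
        obtain ⟨h3, _, h4⟩ := hT p hp
        simp only [hG q hqp, hG p h3]
        exact Gc_prod hr hb h3 h4
      refine h2.trans (h1.trans ?_)
      refine mul_le_mul_of_nonneg_right (by linarith) ?_
      refine mul_nonneg (hw0 q) ?_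
      have : 0 ≤ ∑ p ∈ T.filter (fun p : ℕ => κ * q / Real.log q < (p : ℝ)), Real.log p / (p : ℝ) :=
        Finset.sum_nonneg fun p _ => hw0 p
      linarith
  one := by
    obtain ⟨K, hK, hmq⟩ := mq_le hb
    obtain ⟨P1, hP1⟩ := eventually_atTop.1 hmq
    refine ⟨K, hK.le, P1 + 1, fun q hq _ => ?_⟩
    have h1 := hr.integral hb (n := q) (by omega) (fun m : ℕ => rpi q m)
    have h2 : ∫ x, fl r q x ∂μ = mq b q := by
      have e : ∫ x, fl r q x ∂μ = ∫ x, (fun m : ℕ => rpi q m) (r q x) ∂μ := rfl
      rw [e, h1, sum_UU_rpi hb, mul_div_assoc, div_self (tot_pow_pos hb q).ne', mul_one]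
    rw [h2]
    exact hP1 q (by omega)

/-- the counting statements for the last digits of a random unit -/
theorem pt_low [IsProbabilityMeasure μ] (hb : 2 ≤ b) (hr : Low b μ r) (S : Set ℕ) :
    ∀ᵐ x ∂μ, Pt (fun p => r p x) (Real.exp Real.eulerMascheroniConstant / Real.log b) S :=
  (sys_low hb hr).pt (s := fun x p => r p x) (Filter.Eventually.of_forall fun _ => ⟨0, fun _ _ _ => rfl⟩) S

/-- the counting statements conditionally on the first digit being prime to `b` -/
theorem pt_full {s : ℕ → Ω → ℕ} [IsFiniteMeasure μ] (hb : 2 ≤ b) (hs : Full b μ s) (S : Set ℕ) :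
    ∀ᵐ x ∂μ, (s 1 x).Coprime b →
      Pt (fun p => s p x) (Real.exp Real.eulerMascheroniConstant / Real.log b) S := by
  classical
  rcases eq_or_ne (μ Set.univ) 0 with h0 | h0
  · rw [Measure.measure_univ_eq_zero] at h0
    rw [h0]
    simp
  have hc : 0 < μ.real Set.univ := by
    rw [measureReal_def]
    exact ENNReal.toReal_pos h0 (measure_ne_top _ _)
  set A : Set Ω := {x | (s 1 x).Coprime b} with hA
  have hAm : MeasurableSet A := (hs.meas 1) (MeasurableSet.of_discrete (s := {m : ℕ | m.Coprime b}))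
  have hb0 : (0 : ℝ) < b := by exact_mod_cast (by omega : 0 < b)
  have hφ : (0 : ℝ) < b.totient := by exact_mod_cast Nat.totient_pos.2 (by omega)
  have hAr : μ.real A = μ.real Set.univ * (b.totient : ℝ) / b := by
    have e : A = ⋃ a ∈ (UU b 1), {x | s 1 x = a} := by
      ext x
      simp only [hA, Set.mem_setOf_eq, Set.mem_iUnion, exists_prop]
      constructor
      · intro h
        exact ⟨s 1 x, mem_UU.2 ⟨hs.lt hb 1 x, h⟩, rfl⟩
      · rintro ⟨a, ha, h⟩
        rw [h]
        exact (mem_UU.1 ha).2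
    rw [e, measureReal_biUnion_finset]
    · have h1 : ∀ a ∈ UU b 1, μ.real {x | s 1 x = a} = μ.real Set.univ / (b : ℝ) ^ 1 := by
        intro a ha
        exact hs.unif 1 a (mem_UU.1 ha).1
      rw [Finset.sum_congr rfl h1, Finset.sum_const, nsmul_eq_mul, card_UU hb le_rfl, pow_one, pow_one]
      ring
    · intro a _ a' _ haa
      rw [Function.onFun, Set.disjoint_left]
      intro x hx hx'
      exact haa (hx.symm.trans hx')
    · intro a _
      exact (hs.meas 1) (measurableSet_singleton a)
  have hApos : 0 < μ.real A := by rw [hAr]; positivity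
  have hA0 : μ A ≠ 0 := by
    intro h
    rw [measureReal_def, h] at hApos
    simp at hApos
  haveI : IsProbabilityMeasure (ProbabilityTheory.cond μ A) :=
    ProbabilityTheory.cond_isProbabilityMeasure hA0
  have hlow : Low b (ProbabilityTheory.cond μ A) s := by
    refine ⟨hs.meas, hs.compat, fun n hn a ha hac => ?_⟩
    have hsub : {x | s n x = a} ⊆ A := by
      intro x hx
      simp only [hA, Set.mem_setOf_eq]
      rw [← hs.mod_b hb x hn, Set.mem_setOf_eq.mp hx]
      rw [Nat.Coprime, (Nat.mod_modEq a b).gcd_eq]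
      exact hac
    have h1 : (ProbabilityTheory.cond μ A).real {x | s n x = a} =
        (μ.real A)⁻¹ * μ.real {x | s n x = a} := by
      rw [measureReal_def, ProbabilityTheory.cond_apply hAm, Set.inter_eq_self_of_subset_right hsub,
        ENNReal.toReal_mul, ENNReal.toReal_inv]
      rfl
    rw [h1, hs.unif n a ha, hAr, tot_pow hb hn]
    field_simp
  have h := pt_low hb hlow S
  have h2 : ∀ᵐ x ∂(μ.restrict A),
      Pt (fun p => s p x) (Real.exp Real.eulerMascheroniConstant / Real.log b) S := by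
    unfold ProbabilityTheory.cond at h
    rwa [Measure.ae_ennreal_smul_measure_iff] at h
    exact ENNReal.inv_ne_zero.2 (measure_ne_top _ _)
  rwa [ae_restrict_iff' hAm] at h2

end

end Pool.Agent.TH888.A
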