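import Mathlib
import Pool.Agent.W66.LU

set_option autoImplicit false

/-!
# The digits of the generalized Wagstaff numbers
-/

open Finset

namespace Pool.Agent.TH888.A

/-- the digits of `(b ^ p + 1) / (b + 1)`, from the last one: `1, b - 1, 0, b - 1, 0, ...` -/
lemma wag_digits {b : ℕ} (hb : 2 ≤ b) (e : ℕ → ℕ) (h0 : e 0 = 1) (h1 : ∀ i, Odd i → e i = b - 1)
    (h2 : ∀ i, Even i → i ≠ 0 → e i = 0) (k : ℕ) :
    (∑ i ∈ range (2 * k + 1), e i * b ^ i) * (b + 1) = b ^ (2 * k + 1) + 1 := by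
  induction k with
  | zero => simp [h0]
  | succ k ih =>
    have e1 : 2 * (k + 1) + 1 = (2 * k + 1) + 1 + 1 := by ring
    rw [e1, Finset.sum_range_succ, Finset.sum_range_succ, h1 (2 * k + 1) ⟨k, rfl⟩,
      h2 (2 * k + 1 + 1) ⟨k + 1, by ring⟩ (by omega), zero_mul, add_zero, add_mul, ih]
    obtain ⟨c, rfl⟩ : ∃ c, b = c + 1 := ⟨b - 1, by omega⟩
    simp only [Nat.add_sub_cancel]
    ring

end Pool.Agent.TH888.A
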